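import Pool.Agent.MP_5c28a4_al.H8S.Spec

/-!
Section S5: splitting off the lowest layer in an ultrapower.
-/

set_option autoImplicit false

namespace Pool.Agent.MP_5c28a4_al.H89S.StA

namespace StLift

variable {G : Type} [Group G]

lemma pow_mul_mem {P : Subgroup G} {z q : G} (hz : ∀ x ∈ P, z * x * z⁻¹ ∈ P) (hq : q ∈ P)
    (n : ℕ) : (z * q) ^ n * (z ^ n)⁻¹ ∈ P := by
  induction n with
  | zero => simp
  | succ n ih =>
    have : (z * q) ^ (n + 1) * (z ^ (n + 1))⁻¹ = z * (q * ((z * q) ^ n * (z ^ n)⁻¹)) * z⁻¹ := by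
      rw [pow_succ' (z * q), pow_succ' z]; group
    rw [this]
    exact hz _ (P.mul_mem hq ih)

lemma nz_closure {P : Subgroup G} {T : Set G} (h : ∀ t ∈ T, Nz t P) :
    ∀ z ∈ Subgroup.closure T, Nz z P := by
  intro z hz
  induction hz using Subgroup.closure_induction with
  | mem t ht => exact h t ht
  | one => intro x hx; simpa using hx
  | mul a b _ _ ha hb =>
    intro x hx
    constructor
    · simpa [mul_assoc] using (ha _ (hb x hx).1).1
    · simpa [mul_assoc] using (hb _ (ha x hx).2).2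
  | inv a _ ha => intro x hx; simpa using (ha x hx).symm

lemma exists_fac {N Q Q' : Type} [Group N] [Group Q] [Group Q'] (f : N →* Q') (j : Q →* Q')
    (hj : Function.Injective j) (h : ∀ x, f x ∈ j.range) : ∃ τ : N →* Q, ∀ x, j (τ x) = f x :=
  ⟨(MonoidHom.ofInjective hj).symm.toMonoidHom.comp (f.codRestrict _ h), fun _ =>
    MonoidHom.apply_ofInjective_symm hj _⟩

lemma pow_eq_self {x : G} {k n : ℕ} (h : x ^ n = 1) (hk : k ≡ 1 [MOD n]) : x ^ k = x := by
  rw [pow_eq_pow_mod k h, hk, ← pow_eq_pow_mod 1 h, pow_one]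

lemma finite_map {G' : Type} [Group G'] (f : G →* G') (J : Subgroup G) (h : Finite J) :
    Finite (J.map f) := Finite.of_surjective _ (f.subgroupMap_surjective J)

lemma pow_one_of {p : ℕ} {J : Subgroup G} (h : IsPGroup p J) {x : G} (hx : x ∈ J) :
    ∃ a : ℕ, x ^ p ^ a = 1 := by
  obtain ⟨a, ha⟩ := h ⟨x, hx⟩
  exact ⟨a, congrArg Subtype.val ha⟩

/-- the preimage of a `p`-group under a map with kernel of finite exponent is torsion -/
lemma tors {G' : Type} [Group G'] (f : G →* G') {m p : ℕ} (hm : m ≠ 0) (hp : p ≠ 0)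
    (hk : ∀ x ∈ f.ker, x ^ m = 1) {x : G} {a : ℕ} (h : f x ^ p ^ a = 1) : IsOfFinOrder x :=
  isOfFinOrder_iff_pow_eq_one.2 ⟨p ^ a * m, by positivity, by
    rw [pow_mul]; exact hk _ (by rw [MonoidHom.mem_ker, map_pow, h])⟩

end StLift

open StLift in
theorem lift (hF : BFin) (hS : BSt) (hU : BUlt) (hL : SLNU) : SLift := by
  intro p u G A _ _ ρ hp hfg hsol hok R E hR m hE hRE hm hRm hpm
  have hm0 : m ≠ 0 := by
    rintro rfl
    exact hp.one_lt.ne' (by simpa using hm)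
  have hcop : ∀ a : ℕ, m.Coprime (p ^ a) := fun a => hm.pow_right a
  obtain ⟨T, hT⟩ := hfg.out
  have hg : Subgroup.closure (Set.range fun i : T => (i : G)) = ⊤ := by
    rw [← hT]; congr 1; ext x; simp
  have hc : Countable G := Function.Surjective.countable (f := FreeGroup.lift fun i : T => (i : G))
    (MonoidHom.range_eq_top.1 (by rw [FreeGroup.range_lift_eq_closure, hg]))
  have hEf : LocFin E := hF.locFin G E hsol fun x hx => by
    obtain ⟨a, ha⟩ := hpm x hx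
    exact isOfFinOrder_iff_pow_eq_one.2 ⟨p ^ a * m, by have := hp.pos; positivity, by
      rw [pow_mul, hRm _ ha]⟩
  obtain ⟨v, lam, l1, l2, l3, -, l5⟩ := hL G T R E p m hc hp hR hE hEf hRE hm hRm hpm fun i => i
  obtain ⟨σ, s1, s2⟩ := hU.rep G A ρ
  have hokσ : Ok p u σ := ⟨s2 u hok.1, fun a => by
    obtain ⟨y, rfl⟩ := hU.surj A a
    have : (p : ℤ) • germ y = germ fun n => (p : ℤ) • y n := rfl
    rw [this]
    simp only [hok.2]
    rfl⟩
  have hSn := hU.normal G R hR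
  have hSm : ∀ x ∈ star R, x ^ m = 1 := by
    intro x hx
    obtain ⟨y, rfl⟩ := hU.surj G x
    have : germ y ^ m = germ fun n => y n ^ m := rfl
    rw [this]
    exact (hU.eq G _ fun _ => 1).2 (((hU.mem G R y).1 hx).mono fun n hn => hRm _ hn)
  have hsolU := hU.solv G hsol
  obtain ⟨Q, _, π, hker, j, hj, hjc⟩ : ∃ (Q : Type) (_ : Group Q) (π : Ult G →* Q),
      π.ker = star R ∧ ∃ j : G ⧸ R →* Q, Function.Injective j ∧
        ∀ x, j (QuotientGroup.mk' R x) = π (cst G x) := by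
    refine ⟨_, _, QuotientGroup.mk' (star R), QuotientGroup.ker_mk' _,
      QuotientGroup.map R (star R) (cst G) fun x hx => (hU.cst G R x).2 hx, ?_, fun x => rfl⟩
    rw [injective_iff_map_eq_one]
    intro x hx
    obtain ⟨y, rfl⟩ := QuotientGroup.mk_surjective x
    exact (QuotientGroup.eq_one_iff y).2 ((hU.cst G R y).1 ((QuotientGroup.eq_one_iff _).1 hx))
  have hπe : ∀ x y, π x = π y ↔ x * y⁻¹ ∈ star R := fun x y => by
    rw [← hker, MonoidHom.mem_ker, map_mul, map_inv, mul_inv_eq_one]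
  obtain ⟨g, hgd⟩ : ∃ g : T → Ult G, ∀ i, g i = germ fun n => v n i * i := ⟨_, fun _ => rfl⟩
  have hgπ : ∀ i, π (g i) = j (QuotientGroup.mk' R i) := fun i => by
    rw [hjc, hπe, hgd]
    have : (germ fun n => v n i * i) * (cst G i)⁻¹ = germ fun n => v n i * i * (i : G)⁻¹ := rfl
    rw [this, hU.mem]
    exact Filter.Eventually.of_forall fun n => by simpa using l1 n i
  have hlπ : ∀ x : E, π (lam x) = j (QuotientGroup.mk' R x) := fun x => by
    rw [hjc, hπe]; exact l2 x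
  obtain ⟨N, hN⟩ : ∃ N, N = Subgroup.closure (Set.range g) := ⟨_, rfl⟩
  have hgN : ∀ i, g i ∈ N := fun i => hN ▸ Subgroup.subset_closure ⟨i, rfl⟩
  obtain ⟨τ, hτ⟩ := exists_fac (π.comp N.subtype) j hj fun x => by
    have : N ≤ j.range.comap π := hN ▸ (Subgroup.closure_le _).2 (by
      rintro _ ⟨i, rfl⟩; exact ⟨_, (hgπ i).symm⟩)
    exact this x.2
  replace hτ : ∀ x : N, j (τ x) = π x := hτ
  have hsur : Function.Surjective τ := by
    have h1 : (⊤ : Subgroup G) ≤ τ.range.comap (QuotientGroup.mk' R) := by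
      rw [← hg, Subgroup.closure_le]
      rintro _ ⟨i, rfl⟩
      exact ⟨⟨g i, hgN i⟩, hj (by rw [hτ, hgπ])⟩
    intro x
    obtain ⟨y, rfl⟩ := QuotientGroup.mk'_surjective R x
    exact h1 (Subgroup.mem_top y)
  have hτk : ∀ x ∈ τ.ker, x ^ m = 1 := fun x hx => Subtype.ext (hSm _ (by
    rw [← hker, MonoidHom.mem_ker, ← hτ, MonoidHom.mem_ker.1 hx, map_one]))
  have hnz : ∀ z ∈ N, Nz z lam.range := by
    rw [hN]
    refine nz_closure ?_
    rintro _ ⟨i, rfl⟩ _ ⟨x, rfl⟩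
    rw [hgd]
    refine ⟨⟨⟨_, hE.conj_mem _ x.2 i⟩, l5 i x _ rfl⟩, ⟨⟨_, hE.conj_mem _ x.2 (i : G)⁻¹⟩, ?_⟩⟩
    rw [l5 i ⟨_, hE.conj_mem _ x.2 (i : G)⁻¹⟩ x (by simp [mul_assoc])]
    group
  have hlN : ∀ x : E, lam x ∈ N := by
    intro x
    obtain ⟨y, hy⟩ := hsur (QuotientGroup.mk' R x)
    obtain ⟨a, ha⟩ := hpm x x.2
    have h1 : QuotientGroup.mk' R x ^ p ^ a = 1 := by
      rw [← map_pow]; exact (QuotientGroup.eq_one_iff _).2 ha
    obtain ⟨k, k1, k2⟩ := Nat.chineseRemainder (hcop a).symm 1 0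
    obtain ⟨b, rfl⟩ := (Nat.modEq_zero_iff_dvd).1 k2
    have h2 : (y ^ (m * b)) ^ p ^ a = 1 := by
      rw [← pow_mul, mul_comm, pow_mul, pow_mul,
        hτk _ (by rw [MonoidHom.mem_ker, map_pow, hy, h1]), one_pow]
    have h3 : τ (y ^ (m * b)) = QuotientGroup.mk' R x := by rw [map_pow, hy, pow_eq_self h1 k1]
    generalize y ^ (m * b) = z at h2 h3
    have h4 : (z : Ult G)⁻¹ * lam x ∈ star R := by
      rw [← hker, MonoidHom.mem_ker, map_mul, map_inv, ← hτ, h3, hlπ, inv_mul_cancel]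
    have h5 := pow_mul_mem (hnz _ (N.inv_mem z.2) · · |>.1) ⟨x, rfl⟩ (p ^ a)
    have h6 : (z : Ult G) ^ p ^ a = 1 := congrArg Subtype.val h2
    rw [inv_pow, h6, inv_one, inv_one, mul_one] at h5
    obtain ⟨w, hw⟩ := h5
    obtain ⟨e, he⟩ := l3 w
    rw [hw, ← pow_mul, ← pow_add] at he
    rw [← inv_mul_eq_one.1 (eq_one_of_coprime (hcop _) (hSm _ h4) he)]
    exact z.2
  have hsolN : Group.IsSolvable N := inferInstance
  refine ⟨N, Ult A, inferInstance, inferInstance, σ.comp N.subtype, τ, lam.range.comap N.subtype,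
    hN ▸ inferInstance, hsolN, hokσ.comp _, hsur, hτk, ⟨fun x hx z => (hnz _ z.2 _ hx).1⟩, ?_, ?_,
    ?_, ?_⟩
  · ext y
    constructor
    · rintro ⟨x, ⟨e, he⟩, rfl⟩
      exact ⟨e, e.2, hj (by rw [hτ, ← hlπ, he]; rfl)⟩
    · rintro ⟨e, he, rfl⟩
      exact ⟨⟨lam ⟨e, he⟩, hlN _⟩, ⟨⟨e, he⟩, rfl⟩, hj (by rw [hτ, hlπ])⟩
  · rintro x ⟨e, he⟩
    obtain ⟨a, ha⟩ := l3 e
    exact ⟨a, Subgroup.mem_bot.2 (Subtype.ext (by rw [he] at ha; exact ha))⟩
  · intro X c hRX hX q hq J hJ h1 h2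
    have h3 : J.map N.subtype ≤ star X := by
      rintro _ ⟨x, hx, rfl⟩
      obtain ⟨y, hy, h4⟩ := hJ hx
      have h5 : (x : Ult G) * (cst G y)⁻¹ ∈ star R := by rw [← hπe, ← hjc, h4, hτ]
      rw [← inf_eq_left.2 hRX, hU.inf] at h5
      simpa using (star X).mul_mem h5.2 ((hU.cst G X y).2 hy)
    have h4 := hU.st G X c hX q hq _ h3 (finite_map _ J h1) (h2.map _)
    rwa [← Subgroup.map_lowerCentralSeries,
      Subgroup.map_eq_bot_iff_of_injective _ N.subtype_injective] at h4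
  · rintro K hK t H J hJ ⟨h1, h2⟩
    obtain ⟨E', hE'⟩ : ∃ E', E' = (J.map (QuotientGroup.mk' R)).comap τ := ⟨_, rfl⟩
    have hm1 : E'.map τ = J.map (QuotientGroup.mk' R) :=
      hE' ▸ Subgroup.map_comap_eq_self_of_surjective hsur _
    have hp1 : ∀ x ∈ E', ∃ a : ℕ, τ x ^ p ^ a = 1 := fun x hx =>
      pow_one_of (h2.map (QuotientGroup.mk' R)) (hm1 ▸ Subgroup.mem_map_of_mem τ hx)
    obtain ⟨J', j1, j2, j3⟩ := hS.lift N E' τ.ker E' p hp
      (hF.locFin N E' hsolN fun x hx => by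
        obtain ⟨a, ha⟩ := hp1 x hx
        exact tors τ hm0 hp.ne_zero hτk ha)
      inferInstance (hE' ▸ Subgroup.ker_le_comap _ _) le_rfl (by
        rw [Subgroup.relIndex_ker, hm1]
        have := finite_map (QuotientGroup.mk' R) J h1
        exact Nat.card_pos.ne')
      fun x hx => by
        obtain ⟨a, ha⟩ := hp1 x hx
        exact ⟨a, by rw [MonoidHom.mem_ker, map_pow, ha]⟩
    have hm2 : J'.map τ = J.map (QuotientGroup.mk' R) := by
      rw [← hm1, ← j3, Subgroup.map_sup, (Subgroup.map_eq_bot_iff _).2 le_rfl, sup_bot_eq]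
    have hJK : J' ≤ K := by
      intro x hx
      obtain ⟨k, hk, h3⟩ := hJ (hm2 ▸ Subgroup.mem_map_of_mem τ hx)
      obtain ⟨a, ha⟩ := pow_one_of j2 hx
      have h4 := pow_mul_mem (z := x * k⁻¹) (fun y hy => hK.conj_mem y hy _) hk m
      rw [hτk (x * k⁻¹) (by rw [MonoidHom.mem_ker, map_mul, map_inv, h3, mul_inv_cancel]),
        inv_mul_cancel_right, inv_one, mul_one] at h4
      exact mem_of_coprime (hcop a) h4 (ha ▸ K.one_mem)
    have hm3 : (J'.map N.subtype).map π = (J.map (cst G)).map π := by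
      have e1 : π.comp N.subtype = j.comp τ := MonoidHom.ext fun x => (hτ x).symm
      have e2 : π.comp (cst G) = j.comp (QuotientGroup.mk' R) :=
        MonoidHom.ext fun x => (hjc x).symm
      rw [Subgroup.map_map, Subgroup.map_map, e1, e2, ← Subgroup.map_map, ← Subgroup.map_map, hm2]
    obtain ⟨x, -, hx⟩ := hS.conj (Ult G) (J'.map N.subtype ⊔ star R) (star R) (J'.map N.subtype)
      (J.map (cst G)) p hp
      (hF.locFin _ _ hsolU fun y hy => by
        rw [← hker, ← Subgroup.comap_map_eq] at hy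
        obtain ⟨a, ha⟩ := pow_one_of ((j2.map _).map π) hy
        exact tors π hm0 hp.ne_zero (hker ▸ hSm) ha)
      hSn le_sup_right (fun y hy => ⟨m, hm, hSm y hy⟩) le_sup_left (finite_map _ _ j1)
      (finite_map _ _ h1) (j2.map _) (h2.map _)
      (by rw [← hker, ← Subgroup.comap_map_eq, ← Subgroup.comap_map_eq, hm3])
    have n1 : Nil σ (J'.map N.subtype) t :=
      (H J' hJK ⟨j1, j2⟩).of_inj (AddMonoidHom.id _) Function.injective_id (by
        rintro _ ⟨s, hs, rfl⟩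
        exact ⟨s, hs, fun _ => rfl⟩)
    have n2 : Nil σ (J.map (cst G)) t := n1.conj x fun s hs => (hx s).1 hs
    refine n2.of_inj (AddMonoidHom.mk' (fun a => germ fun _ => a) fun _ _ => rfl)
      (fun a b h => ((hU.eq A _ _).1 h).exists.choose_spec) fun s hs =>
      ⟨cst G s, ⟨s, hs, rfl⟩, fun a => (s1 _ _).symm⟩

end Pool.Agent.MP_5c28a4_al.H89S.StA
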